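import Pool.Agent.W668.Uni.Stmts

/-!
# Landsberg unicorn, subtask UNI-ABEL: `P_A1 → P_sph → P_inj → P_path → P_abel`
-/

set_option autoImplicit false

open Set MeasureTheory
open scoped ContDiff Topology

namespace Pool.Agent.W64.Uni

open Pool.Agent.W668.Uni

noncomputable section

theorem evX_ext (f g : X) (h : ∀ x : ℝ, 0 ≤ x → x ≤ 1 → evX f x = evX g x) : f = g := by
  ext z
  have h1 := h z z.2.1 z.2.2
  have e : Set.projIcc (0 : ℝ) 1 zero_le_one (z : ℝ) = z := Set.projIcc_val zero_le_one z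
  unfold evX at h1
  rw [e] at h1
  exact h1

theorem sig_sq (t ψ : ℝ) : sig t ψ ^ 2 = t ^ 2 * Real.cos ψ ^ 2 + Real.sin ψ ^ 2 := by
  unfold sig
  rw [Real.sq_sqrt (by positivity)]

theorem sig_nonneg (t ψ : ℝ) : 0 ≤ sig t ψ := Real.sqrt_nonneg _

theorem sig_le_one {t : ℝ} (h0 : 0 ≤ t) (h1 : t ≤ 1) (ψ : ℝ) : sig t ψ ≤ 1 := by
  have h2 : sig t ψ ^ 2 ≤ 1 := by
    rw [sig_sq]
    have h3 : t ^ 2 ≤ 1 := by nlinarith
    have h4 := Real.sin_sq_add_cos_sq ψ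
    nlinarith [sq_nonneg (Real.cos ψ)]
  nlinarith [sig_nonneg t ψ]

theorem t_le_sig {t : ℝ} (h0 : 0 ≤ t) (h1 : t ≤ 1) (ψ : ℝ) : t ≤ sig t ψ := by
  have h2 : t ^ 2 ≤ sig t ψ ^ 2 := by
    rw [sig_sq]
    have h3 : t ^ 2 ≤ 1 := by nlinarith
    have h4 := Real.sin_sq_add_cos_sq ψ
    nlinarith [sq_nonneg (Real.sin ψ)]
  exact (sq_le_sq₀ h0 (sig_nonneg t ψ)).1 h2

/-- the integrand in polar coordinates -/
def HH (k0 : Y) (g : X) (x φ t : ℝ) : ℝ :=
  Real.sin φ ^ 2 * Real.sin t ^ 2 * (evY k0 (x * Real.sin φ) t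
    * evX g (x * Real.sin φ * Real.cos t))

theorem HH_cont (k0 : Y) (g : X) (x : ℝ) :
    Continuous (fun p : ℝ × ℝ => HH k0 g x p.1 p.2) := by
  unfold HH
  have h1 : Continuous (fun p : ℝ × ℝ => evY k0 (x * Real.sin p.1) p.2) :=
    (continuous_evY k0).comp (by fun_prop : Continuous (fun p : ℝ × ℝ =>
      ((x * Real.sin p.1, p.2) : ℝ × ℝ)))
  have h2 : Continuous (fun p : ℝ × ℝ => evX g (x * Real.sin p.1 * Real.cos p.2)) :=
    (continuous_evX g).comp (by fun_prop)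
  fun_prop

theorem HH_eq (k0 : Y) (g : X) {x t ψ : ℝ} (ht0 : 0 ≤ t) (ht1 : t ≤ 1) :
    HH k0 g x (Real.arcsin (sig t ψ)) (bet t ψ)
      = evX g (x * t) * (1 - t ^ 2) *
        (Real.sin ψ ^ 2 * evY k0 (x * sig t ψ) (bet t ψ)) := by
  have hs0 := sig_nonneg t ψ
  have hs1 := sig_le_one ht0 ht1 ψ
  have hst := t_le_sig ht0 ht1 ψ
  have hsin : Real.sin (Real.arcsin (sig t ψ)) = sig t ψ :=
    Real.sin_arcsin (by linarith) hs1
  have key : sig t ψ ^ 2 - t ^ 2 = (1 - t ^ 2) * Real.sin ψ ^ 2 := by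
    rw [sig_sq]
    have h4 := Real.sin_sq_add_cos_sq ψ
    have h5 : Real.cos ψ ^ 2 = 1 - Real.sin ψ ^ 2 := by linarith
    rw [h5]; ring
  unfold HH
  rw [hsin]
  rcases hs0.eq_or_lt with h0 | hpos
  · rw [← h0] at key hst ⊢
    have ht : t = 0 := le_antisymm hst ht0
    subst ht
    have h6 : Real.sin ψ ^ 2 = 0 := by linarith
    rw [h6]
    ring
  · have hcos : Real.cos (bet t ψ) = t / sig t ψ := by
      unfold bet
      apply Real.cos_arccos
      · have : 0 ≤ t / sig t ψ := by positivity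
        linarith
      · rw [div_le_one hpos]; exact hst
    have hsb : sig t ψ ^ 2 * Real.sin (bet t ψ) ^ 2 = (1 - t ^ 2) * Real.sin ψ ^ 2 := by
      have h7 : Real.sin (bet t ψ) ^ 2 = 1 - (t / sig t ψ) ^ 2 := by
        rw [← hcos]
        have := Real.sin_sq_add_cos_sq (bet t ψ)
        linarith
      rw [h7, ← key]
      field_simp
    have hx : x * sig t ψ * Real.cos (bet t ψ) = x * t := by
      rw [hcos]
      field_simp
    rw [hsb, hx]
    ring

theorem evY_mul (h k : Y) (y t : ℝ) : evY (h * k) y t = evY h y t * evY k y t := rfl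

theorem QW (O : Ops) (k0 : Y) (g : X) (hsph : P_sph) {x : ℝ} (hx0 : 0 ≤ x) (hx1 : x ≤ 1) :
    evX (O.Q (O.W (k0 * O.lift g))) x = ∫ r in (0 : ℝ)..1, evX g (x * r) * ((1 - r ^ 2) *
          ∫ ψ in (0 : ℝ)..(Real.pi / 2), Real.sin ψ ^ 2 *
            evY k0 (x * sig r ψ) (bet r ψ)) := by
  rw [O.Q_ev _ x hx0 hx1]
  have hpi : (0 : ℝ) ≤ Real.pi / 2 := Th_le
  have e1 : (∫ p in (0 : ℝ)..(Real.pi / 2), Real.sin p ^ 3 *
        evX (O.W (k0 * O.lift g)) (x * Real.sin p))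
      = ∫ φ in (0 : ℝ)..(Real.pi / 2), ∫ t in (0 : ℝ)..(Real.pi / 2),
          HH k0 g x φ t * Real.sin φ := by
    apply intervalIntegral.integral_congr
    intro φ hφ
    rw [Set.uIcc_of_le hpi] at hφ
    have hs0 : 0 ≤ Real.sin φ := Real.sin_nonneg_of_nonneg_of_le_pi hφ.1 (by
      have := Real.pi_pos
      linarith [hφ.2])
    have hs1 : Real.sin φ ≤ 1 := Real.sin_le_one φ
    have hy0 : 0 ≤ x * Real.sin φ := mul_nonneg hx0 hs0
    have hy1 : x * Real.sin φ ≤ 1 := by nlinarith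
    simp only
    rw [O.W_ev, ← intervalIntegral.integral_const_mul]
    apply intervalIntegral.integral_congr
    intro t ht
    rw [Set.uIcc_of_le hpi] at ht
    simp only
    rw [evY_mul, O.lift_ev g _ t hy0 hy1 ht.1 ht.2]
    unfold HH
    ring
  rw [e1, hsph _ (HH_cont k0 g x)]
  apply intervalIntegral.integral_congr
  intro r hr
  rw [Set.uIcc_of_le zero_le_one] at hr
  simp only
  rw [← mul_assoc, ← intervalIntegral.integral_const_mul]
  apply intervalIntegral.integral_congr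
  intro ψ _
  exact HH_eq k0 g hr.1 hr.2

/-- UNI-ABEL -/
theorem abel (hA : P_A1) (hsph : P_sph) (hinj : P_inj) (hpath : P_path) : P_abel := by
  intro O
  obtain ⟨A, hIs⟩ := hA
  refine ⟨A, fun k hk g => ?_⟩
  obtain ⟨hQ, -, hQP⟩ := hinj O
  have h0 : O.Q (O.P (A k g) - O.W (k 0 * O.lift g)) = 0 := by
    rw [map_sub, sub_eq_zero]
    apply evX_ext
    intro x hx0 hx1
    rw [hQP _ x hx0 hx1, hpath A hIs k hk g x hx0 hx1, QW O (k 0) g hsph hx0 hx1]
  exact sub_eq_zero.1 (hQ _ h0)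

end

end Pool.Agent.W64.Uni
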